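import Mathlib
import Pool.Agent.Run7.h103.SeqMain

/-! There is one uniformly computable sequence of infinite computable binary trees such that
every computable infinite binary tree has an infinite homogeneous set from which no sequence of
infinite homogeneous sets for the members of the sequence is uniformly computable; in fact every
candidate sequence computable from it fails at infinitely many members. -/

set_option autoImplicit false

namespace Pool.Agent.Results.MP_aa609a_lc.UniformSequence

theorem result :
    ∃ Y : ℕ → List Bool → Prop,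
      ComputablePred (fun a : ℕ × List Bool => Y a.1 a.2) ∧
      (∀ (n : ℕ) (σ τ : List Bool), σ <+: τ → Y n τ → Y n σ) ∧
      (∀ n : ℕ, {σ : List Bool | Y n σ}.Infinite) ∧
      ∀ X : List Bool → Prop, ComputablePred X →
        (∀ σ τ : List Bool, σ <+: τ → X τ → X σ) →
        {σ : List Bool | X σ}.Infinite →
        ∃ H : ℕ → Bool,
          ({i : ℕ | H i = true}.Infinite ∧
            {σ : List Bool | X σ ∧ ∃ c : Bool, ∀ i : ℕ, H i = true →
              ∀ b : Bool, σ[i]? = some b → b = c}.Infinite) ∧
          ∀ G : ℕ → ℕ → Bool,
            TuringReducible (fun m => Part.some (G m.unpair.1 m.unpair.2).toNat)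
              (fun m => Part.some (H m).toNat) →
            {n : ℕ | ¬ ({i : ℕ | G n i = true}.Infinite ∧
              {σ : List Bool | Y n σ ∧ ∃ c : Bool, ∀ i : ℕ, G n i = true →
                ∀ b : Bool, σ[i]? = some b → b = c}.Infinite)}.Infinite := by
  refine ⟨Run7.h103.YY, Run7.h103.YY_primrec.computablePred, fun n σ τ h h' =>
    Run7.h103.YY_closed n h h', Run7.h103.YY_infinite, ?_⟩
  intro X hX hXt hXi
  obtain ⟨H, hH, hmain⟩ := Run7.h103.seq_main X hX hXt hXi
  refine ⟨H, hH, fun G hG => ?_⟩
  refine Set.infinite_of_forall_exists_gt (fun k => ?_)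
  obtain ⟨i, hi, hn⟩ := hmain G hG (k+1)
  exact ⟨i, hn, hi⟩

end Pool.Agent.Results.MP_aa609a_lc.UniformSequence
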